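import Pool.Agent.P.MP_548a57_lc.R.Phase

/-!
Normalised weights of one phase, and the average over the coins.
-/

namespace Pool.Agent.P.MP_548a57_lc.R

open Finset MeasureTheory

section

variable {Dir ι : Type} [Fintype Dir] [DecidableEq Dir] [Fintype ι] [DecidableEq ι]

/-- The declared word is the hidden word of a uniform direction. -/
noncomputable def wS (z : (Dir → ι → Bool) × Dir × (ι → Bool)) : ℝ :=
  (if z.2.2 = z.1 z.2.1 then 1 else 0) / (Fintype.card (Dir → ι → Bool) * Fintype.card Dir)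

/-- The declared word is a noisy negation of the hidden word of a uniform direction. -/
noncomputable def wK (r : ℕ) (δ : ℝ) (z : (Dir → ι → Bool) × Dir × (ι → Bool)) : ℝ :=
  Kt r δ (z.1 z.2.1) z.2.2 / (Fintype.card (Dir → ι → Bool) * Fintype.card Dir)

theorem wS_nonneg (z : (Dir → ι → Bool) × Dir × (ι → Bool)) : 0 ≤ wS z := by
  unfold wS
  positivity

theorem wK_nonneg (r : ℕ) (δ : ℝ) (z : (Dir → ι → Bool) × Dir × (ι → Bool)) : 0 ≤ wK r δ z :=
  div_nonneg (Kt_nonneg _ _ _ _) (by positivity)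

theorem wS_ne {z : (Dir → ι → Bool) × Dir × (ι → Bool)} (h : wS z ≠ 0) : z.2.2 = z.1 z.2.1 := by
  by_contra h1
  exact h (by rw [wS, if_neg h1, zero_div])

theorem wK_ne {r : ℕ} {δ : ℝ} {z : (Dir → ι → Bool) × Dir × (ι → Bool)} (h : wK r δ z ≠ 0) :
    (agr (z.1 z.2.1) z.2.2 : ℝ) ≤ δ * Fintype.card ι := by
  by_contra h1
  exact h (by rw [wK, Kt, if_neg h1, zero_div])

theorem sum_wS (g : (Dir → ι → Bool) × Dir × (ι → Bool) → ℝ) : ∑ z, wS z * g z =
    (∑ X, ∑ j, g (X, j, X j)) / (Fintype.card (Dir → ι → Bool) * Fintype.card Dir) := by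
  simp only [wS, div_mul_eq_mul_div, ← sum_div, Fintype.sum_prod_type, ite_mul, one_mul, zero_mul,
    sum_ite_eq', mem_univ, if_true]

theorem sum_wK (r : ℕ) (δ : ℝ) (g : (Dir → ι → Bool) × Dir × (ι → Bool) → ℝ) :
    ∑ z, wK r δ z * g z = (∑ X, ∑ j, ∑ w, Kt r δ (X j) w * g (X, j, w)) /
      (Fintype.card (Dir → ι → Bool) * Fintype.card Dir) := by
  simp only [wK, div_mul_eq_mul_div, ← sum_div, Fintype.sum_prod_type]

variable [Nonempty Dir]

theorem card_pos' : (0 : ℝ) < Fintype.card (Dir → ι → Bool) * Fintype.card Dir := by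
  exact_mod_cast Nat.mul_pos Fintype.card_pos Fintype.card_pos

theorem sum_wS_one : ∑ z : (Dir → ι → Bool) × Dir × (ι → Bool), wS z = 1 := by
  have := sum_wS (Dir := Dir) (ι := ι) fun _ => 1
  simp only [mul_one, sum_const, card_univ, nsmul_eq_mul] at this
  rw [this, div_self card_pos'.ne']

theorem sum_wK_le (r : ℕ) (δ : ℝ) :
    ∑ z : (Dir → ι → Bool) × Dir × (ι → Bool), wK r δ z ≤ 1 := by
  have := sum_wK (Dir := Dir) (ι := ι) r δ fun _ => 1
  simp only [mul_one] at this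
  rw [this, div_le_one card_pos']
  refine (sum_le_sum fun X _ => sum_le_sum fun j _ =>
    (sum_le_sum fun w _ => Kt_le r δ (X j) w).trans_eq (sum_Kn_one r _)).trans_eq ?_
  simp only [mul_one, sum_const, card_univ, nsmul_eq_mul]

/-- The first constant. -/
noncomputable def cst₀ (r : ℕ) (κ : ℝ) : ℝ := 1 + 4 * 2 ^ r * (2 / κ - Real.log (κ / 4))

/-- The second constant. -/
noncomputable def cst₁ (r : ℕ) (κ : ℝ) : ℝ := 8 * 2 ^ r / κ

theorem one_phase' {St : Type} [Fintype St] (r s : ℕ) {δ κ u Λ : ℝ}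
    (hs : Fintype.card St ≤ 2 ^ s) (hδ : 4 * par r ≤ δ) (hκ : 0 < κ) (hu0 : 0 ≤ u)
    (hu : (s : ℝ) ≤ u * Fintype.card Dir) (huΛ : u ≤ Λ)
    (hN : cst₀ r κ + cst₁ r κ * u ≤ δ * Fintype.card ι / 2)
    (f : (Dir → ι → Bool) → St) (T : St → Dir × (ι → Bool) → Prop)
    (hT : κ ≤ ∑ z : (Dir → ι → Bool) × Dir × (ι → Bool), wS z * ind (T (f z.1) z.2)) :
    Real.exp (-(cst₀ r κ - Real.log (κ / 4) + cst₁ r κ * Λ)) ≤
      ∑ z : (Dir → ι → Bool) × Dir × (ι → Bool), wK r δ z * ind (T (f z.1) z.2) := by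
  rw [sum_wS, le_div_iff₀ card_pos'] at hT
  rw [sum_wK, le_div_iff₀ card_pos']
  have h4 : κ / 4 = Real.exp (Real.log (κ / 4)) := (Real.exp_log (by positivity)).symm
  have ha : (κ / 4 / Real.exp (2 * (u + 1) / κ)) ^ (2 * 2 ^ r) *
      (κ / 4 / Real.exp (2 * (u + 1) / κ)) ^ (2 * 2 ^ r) =
      Real.exp (1 - (cst₀ r κ + cst₁ r κ * u)) := by
    rw [h4, ← Real.exp_sub, ← Real.exp_nat_mul, ← Real.exp_add, cst₀, cst₁]
    congr 1
    push_cast
    ring
  have h2 : 2 ≤ Real.exp 1 := by linarith [Real.add_one_le_exp 1]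
  have h1 := one_phase r s (Δ := 2 * (u + 1) / κ) hs hδ hκ.le (by positivity) (by
    rw [mul_div_cancel₀ _ hκ.ne']
    linarith) (by
    rw [ha, sub_eq_add_neg, Real.exp_add]
    exact mul_le_mul h2 (Real.exp_le_exp.2 (by linarith)) (Real.exp_pos _).le
      (Real.exp_pos _).le) f T hT
  refine le_trans (mul_le_mul_of_nonneg_right ?_ card_pos'.le) h1
  have h5 : cst₁ r κ * u ≤ cst₁ r κ * Λ :=
    mul_le_mul_of_nonneg_left huΛ (by unfold cst₁; positivity)
  rw [ha, sub_eq_add_neg 1, Real.exp_add]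
  calc _ ≤ Real.exp (-(cst₀ r κ + cst₁ r κ * u)) * Real.exp (Real.log (κ / 4)) := by
        rw [← Real.exp_add]
        exact Real.exp_le_exp.2 (by linarith)
    _ ≤ _ := by
        rw [← h4]
        refine mul_le_mul_of_nonneg_right ?_ (by positivity)
        nlinarith [Real.exp_pos (-(cst₀ r κ + cst₁ r κ * u))]

end

theorem integral_ind {Ω Z : Type} [MeasurableSpace Ω] (μ : Measure Ω) [IsProbabilityMeasure μ]
    [Fintype Z] (a : Z → ℝ) (E : Z → Set Ω) (hE : ∀ z, MeasurableSet (E z)) :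
    Integrable (fun ω => ∑ z, a z * ind (ω ∈ E z)) μ ∧
      ∫ ω, ∑ z, a z * ind (ω ∈ E z) ∂μ = ∑ z, a z * μ.real (E z) := by
  have e : ∀ z, (fun ω => a z * ind (ω ∈ E z)) = (E z).indicator fun _ => a z := by
    intro z
    funext ω
    by_cases h : ω ∈ E z
    · rw [ind_pos h, Set.indicator_of_mem h, mul_one]
    · rw [ind_neg h, Set.indicator_of_notMem h, mul_zero]
  have hi : ∀ z, Integrable (fun ω => a z * ind (ω ∈ E z)) μ := fun z => by
    rw [e]
    exact (integrable_const _).indicator (hE z)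
  refine ⟨integrable_finsetSum _ fun z _ => hi z, ?_⟩
  rw [integral_finsetSum _ fun z _ => hi z]
  refine sum_congr rfl fun z _ => ?_
  rw [e, integral_indicator_const _ (hE z), smul_eq_mul, mul_comm]

theorem average {Ω Z : Type} [MeasurableSpace Ω] (μ : Measure Ω) [IsProbabilityMeasure μ]
    [Fintype Z] (a b : Z → ℝ) (ha0 : ∀ z, 0 ≤ a z) (ha1 : ∑ z, a z = 1) (hb0 : ∀ z, 0 ≤ b z)
    (hb1 : ∑ z, b z ≤ 1) (E₁ E₂ : Z → Set Ω) (h₁ : ∀ z, MeasurableSet (E₁ z))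
    (h₂ : ∀ z, MeasurableSet (E₂ z)) {p q θ ε : ℝ} (hε : 0 ≤ ε) (hθ : 0 ≤ θ) (hq0 : 0 ≤ q)
    (hp : ∀ z, μ.real (E₁ z) ≤ p) (hq : ∀ z, μ.real (E₂ z) ≤ q) (hpθ : p ≤ 1 - 2 * θ)
    (h : ∀ ω, ∑ z, a z * ind (ω ∈ E₁ z) < 1 - θ → ε ≤ ∑ z, b z * ind (ω ∈ E₂ z)) :
    ε * θ ≤ q := by
  obtain ⟨i₁, e₁⟩ := integral_ind μ a E₁ h₁
  obtain ⟨i₂, e₂⟩ := integral_ind μ b E₂ h₂
  have key := integral_mono (f := fun _ => ε * (1 - θ)) (integrable_const _)
    ((i₁.const_mul ε).add i₂) fun ω => by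
      have a1 : 0 ≤ ∑ z, a z * ind (ω ∈ E₁ z) :=
        sum_nonneg fun z _ => mul_nonneg (ha0 z) (ind_nonneg _)
      have a2 : 0 ≤ ∑ z, b z * ind (ω ∈ E₂ z) :=
        sum_nonneg fun z _ => mul_nonneg (hb0 z) (ind_nonneg _)
      change ε * (1 - θ) ≤ ε * ∑ z, a z * ind (ω ∈ E₁ z) + ∑ z, b z * ind (ω ∈ E₂ z)
      by_cases hω : ∑ z, a z * ind (ω ∈ E₁ z) < 1 - θ
      · have := h ω hω
        nlinarith [mul_nonneg hε a1, mul_nonneg hε hθ]
      · nlinarith [mul_le_mul_of_nonneg_left (not_lt.1 hω) hε]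
  rw [integral_add' (i₁.const_mul ε) i₂, integral_const_mul, integral_const_mul, e₁, e₂] at key
  simp only [integral_const, probReal_univ, one_smul] at key
  have a1 : ∑ z, a z * μ.real (E₁ z) ≤ p := by
    refine (sum_le_sum fun z _ => mul_le_mul_of_nonneg_left (hp z) (ha0 z)).trans_eq ?_
    rw [← sum_mul, ha1, one_mul]
  have a2 : ∑ z, b z * μ.real (E₂ z) ≤ q := by
    refine (sum_le_sum fun z _ => mul_le_mul_of_nonneg_left (hq z) (hb0 z)).trans ?_
    rw [← sum_mul]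
    exact mul_le_of_le_one_left hq0 hb1
  nlinarith [mul_le_mul_of_nonneg_left (a1.trans hpθ) hε]

end Pool.Agent.P.MP_548a57_lc.R
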