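import Pool.Agent.P.MP_548a57_lc.Defs

/-!
Randomised one-pass streaming algorithms for the size of a maximum matching.
-/

namespace Pool.Agent.P.MP_548a57_lc.R

open MeasureTheory Filter

/-- A randomised one-pass streaming algorithm for graphs on `Fin n`: all its coins are a point `ω`
of a probability space, and each `ω` gives a deterministic algorithm `alg ω`. The coins are not
charged to the memory. -/
structure RandAlg (n : ℕ) where
  Ω : Type
  [ms : MeasurableSpace Ω]
  μ : Measure Ω
  prob : IsProbabilityMeasure μ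
  alg : Ω → DetAlg n
  meas : ∀ l, Measurable fun ω => (alg ω).run l

/-- On the graph `G`, for every edge order, the output is below `α ν(G)` with probability at most
`p` and above `ν(G)` with probability at most `q`. -/
def RandAlg.ErrLe {n : ℕ} (A : RandAlg n) (α : ℝ) (G : SimpleGraph (Fin n)) (p q : ℝ) : Prop :=
  ∀ l, IsStream G l → A.μ.real {ω | (A.alg ω).run l < α * matchNum G} ≤ p ∧
    A.μ.real {ω | matchNum G < (A.alg ω).run l} ≤ q

/-- The ratio `α` is achieved on the graphs of the class `𝒢` by randomised algorithms with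
`O(n polylog n)` bits of memory whose two error probabilities stay below a constant `ρ < 1`,
one of the two being at most `exp (-n / log ^ D n)`. -/
def Achievable (𝒢 : (n : ℕ) → Set (SimpleGraph (Fin n))) (α : ℝ) : Prop :=
  ∃ (A : (n : ℕ) → RandAlg n) (p q : ℕ → ℝ),
    (∃ c C n₀ : ℕ, ∀ n, n₀ ≤ n → ∀ ω, ((A n).alg ω).bits ≤ c * n * (Nat.log 2 n) ^ C) ∧
    (∀ n, ∀ G ∈ 𝒢 n, (A n).ErrLe α G (p n) (q n)) ∧
    ∃ ρ < (1 : ℝ), ∃ D : ℕ, ∀ᶠ n : ℕ in atTop, max (p n) (q n) ≤ ρ ∧
      min (p n) (q n) ≤ Real.exp (-(n / (Nat.log 2 n : ℝ) ^ D))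

end Pool.Agent.P.MP_548a57_lc.R
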