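import Pool.Agent.P.MP_548a57_lc.Compile

/-!
The matching number of the streams built from a blueprint, when the declared words nearly
disagree or nearly agree with the hidden words.
-/

namespace Pool.Agent.P.MP_548a57_lc.R

open Finset

theorem graph_of_list {W : Type} {n : ℕ} (e : W ≃ Fin n) (col : W → Bool) (L : List (Sym2 W))
    (hL : L.Nodup) (hc : ∀ u v, s(u, v) ∈ L → col u ≠ col v) :
    ∃ H : SimpleGraph (Fin n), H.IsBipartite ∧ IsStream H (L.map (Sym2.map e)) ∧
      (∀ C : Finset W, (∀ u v, s(u, v) ∈ L → u ∈ C ∨ v ∈ C) → matchNum H ≤ C.card) ∧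
      ∀ M : Finset (W × W), (∀ p ∈ M, s(p.1, p.2) ∈ L) → DisjPairs M → M.card ≤ matchNum H := by
  have hinj : Function.Injective (Sym2.map e : Sym2 W → Sym2 (Fin n)) :=
    Sym2.map.injective e.injective
  let H : SimpleGraph (Fin n) :=
    { Adj := fun x y => s(e.symm x, e.symm y) ∈ L
      symm := ⟨fun x y h => by rwa [Sym2.eq_swap]⟩
      loopless := ⟨fun x h => hc _ _ h rfl⟩ }
  refine ⟨H, ?_, ⟨hL.map hinj, ?_⟩, fun C hC => ?_, fun M hM hd => ?_⟩
  · refine ⟨SimpleGraph.Coloring.mk (fun x => if col (e.symm x) then 0 else 1) ?_⟩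
    intro x y hxy
    have := hc _ _ hxy
    revert this
    cases col (e.symm x) <;> cases col (e.symm y) <;> simp
  · intro ed
    induction ed using Sym2.ind with
    | _ x y =>
      rw [SimpleGraph.mem_edgeSet, List.mem_map]
      constructor
      · rintro ⟨ed', hed', he⟩
        have : ed' = s(e.symm x, e.symm y) := by
          apply hinj
          rw [he]; simp
        show s(e.symm x, e.symm y) ∈ L
        rwa [← this]
      · intro h
        exact ⟨_, h, by simp⟩
  · refine (matchNum_le_cover H (C.map e.toEmbedding) fun u v huv => ?_).trans_eq (card_map _)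
    exact (hC _ _ huv).imp (fun h => mem_map.2 ⟨_, h, by simp⟩) fun h => mem_map.2 ⟨_, h, by simp⟩
  · refine (card_map (e.prodCongr e).toEmbedding).ge.trans (card_le_matchNum H _ ?_ ?_)
    · intro p hp
      obtain ⟨q, hq, rfl⟩ := mem_map.1 hp
      simpa [H] using hM q hq
    · intro p hp p' hp' hne
      obtain ⟨q, hq, rfl⟩ := mem_map.1 hp
      obtain ⟨q', hq', rfl⟩ := mem_map.1 hp'
      have := hd q hq q' hq' (fun h => hne (by rw [h]))
      simpa [e.injective.ne_iff] using this

variable {k : ℕ} {Init Col : Type} [Fintype Init] [Fintype Col] {η : ℝ}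
  {G : Fin k → Gadget Col η}

open Classical in
/-- The vertices whose label is not good. -/
noncomputable def notGood (B : Blueprint k Init Col) (ch : (i : Fin k) → Chc G i) :
    Finset (Vtx Init G) :=
  univ.filter fun v => ¬ B.Good (lab B ch v)

open Classical in
theorem notGood_card (B : Blueprint k Init Col) (ch : (i : Fin k) → Chc G i) {β : ℝ}
    (hβ : ((univ.filter fun a => ¬ B.Good a).card : ℝ) ≤ β * Fintype.card (Lab k Init Col)) :
    ((notGood B ch).card : ℝ) ≤ β * Fintype.card (Vtx Init G) :=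
  dens_of_bij _ _ (lab_bij B ch) (fun a => ¬ B.Good a) β hβ

open Classical in
theorem cover_no (B : Blueprint k Init Col) (hG : ∀ i, 0 < (G i).nz)
    (ch : (i : Fin k) → Chc G i) (X : (i : Fin k) → Hid G i) (δ : ℝ)
    (h : ∀ i, ((univ.filter fun p => (ch i).2 p = X i (ch i).1 p).card : ℝ) ≤
      δ * Fintype.card (Idx G i)) :
    ∃ C : Finset (Vtx Init G ⊕ Vtx Init G),
      (∀ u v, s(u, v) ∈ stream B ch X (notGood B ch) → u ∈ C ∨ v ∈ C) ∧
      (C.card : ℝ) ≤ (notGood B ch).card + k * (η + δ) * Fintype.card (Vtx Init G) := by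
  have hbad := bad_card (Init := Init) hG ch X δ h
  set C₀ := notGood B ch ∪ univ.filter fun v => BadV ch X v with hC₀
  refine ⟨C₀.map Function.Embedding.inl, fun a b hab => ?_, ?_⟩
  · have hin : ∀ v, v ∈ C₀ → (Sum.inl v : Vtx Init G ⊕ Vtx Init G) ∈
        C₀.map Function.Embedding.inl := fun v hv => mem_map.2 ⟨v, hv, rfl⟩
    rcases mem_stream.1 hab with ⟨i, v, w, h1, h2⟩ | ⟨v, hv, h2⟩
    · have h3 : v ∈ C₀ ∨ w ∈ C₀ := by
        by_cases hv : BadV ch X v
        · exact Or.inl (mem_union_right _ (mem_filter.2 ⟨mem_univ _, hv⟩))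
        · exact (not_and_or.1 (no_edge_safe B ch X i v w h1 hv)).imp
            (fun h => mem_union_left _ (mem_filter.2 ⟨mem_univ _, h⟩))
            fun h => mem_union_left _ (mem_filter.2 ⟨mem_univ _, h⟩)
      rcases Sym2.eq_iff.1 h2 with ⟨rfl, rfl⟩ | ⟨rfl, rfl⟩
      · exact h3.imp (hin v) (hin w)
      · exact h3.symm.imp (hin w) (hin v)
    · rcases Sym2.eq_iff.1 h2 with ⟨rfl, rfl⟩ | ⟨rfl, rfl⟩
      · exact Or.inl (hin v (mem_union_left _ hv))
      · exact Or.inr (hin v (mem_union_left _ hv))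
  · rw [card_map]
    have h3 := (Nat.cast_le (α := ℝ)).2
      (card_union_le (notGood B ch) (univ.filter fun v => BadV ch X v))
    push_cast at h3
    linarith

open Classical in
theorem match_yes (B : Blueprint k Init Col) (hG : ∀ i, 0 < (G i).nz)
    (ch : (i : Fin k) → Chc G i) (X : (i : Fin k) → Hid G i) (δ γ : ℝ)
    (hγ : γ * Fintype.card (Lab k Init Col) ≤ B.I.card)
    (h : ∀ i, ((univ.filter fun p => (ch i).2 p = !X i (ch i).1 p).card : ℝ) ≤
      δ * Fintype.card (Idx G i)) :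
    ∃ M : Finset ((Vtx Init G ⊕ Vtx Init G) × (Vtx Init G ⊕ Vtx Init G)),
      (∀ p ∈ M, s(p.1, p.2) ∈ stream B ch X (notGood B ch)) ∧ DisjPairs M ∧
      ((notGood B ch).card : ℝ) + (γ - k * (η + δ)) * Fintype.card (Vtx Init G) ≤ M.card := by
  have hbad := bad_card (Init := Init) hG ch (fun i j p => !X i j p) δ h
  set C₀ := notGood B ch with hC₀
  have hbij := lab_bij B ch
  let Ψ := Equiv.ofBijective _ hbij
  let mate : Vtx Init G → Vtx Init G := fun v => Ψ.symm (lns ch v, B.J (lab B ch v))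
  have hmate : ∀ v, lns ch (mate v) = lns ch v ∧ lab B ch (mate v) = B.J (lab B ch v) := by
    intro v
    have := Ψ.apply_symm_apply (lns ch v, B.J (lab B ch v))
    exact ⟨congrArg Prod.fst this, congrArg Prod.snd this⟩
  have hmate_inj : ∀ v w, lab B ch v ∈ B.I → lab B ch w ∈ B.I → mate v = mate w → v = w := by
    intro v w hv hw h
    apply hbij.1
    have h1 : lns ch v = lns ch w := by rw [← (hmate v).1, h, (hmate w).1]
    have h2 : B.J (lab B ch v) = B.J (lab B ch w) := by rw [← (hmate v).2, h, (hmate w).2]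
    exact Prod.ext h1 (B.J_inj hv hw h2)
  set U : Finset (Vtx Init G) := univ.filter fun v => lab B ch v ∈ B.I ∧
    ¬ BadV ch (fun i j p => !X i j p) v with hU
  have hUC : ∀ v ∈ U, v ∉ C₀ ∧ mate v ∉ C₀ := by
    intro v hv
    have h4 := B.good_I _ (mem_filter.1 hv).2.1
    exact ⟨fun h => (mem_filter.1 h).2 h4.1,
      fun h => (mem_filter.1 h).2 (by rw [(hmate v).2]; exact h4.2)⟩
  have hUU : ∀ v ∈ U, ∀ w ∈ U, v ≠ mate w := by
    intro v hv w hw h
    have h1 := ((mem_filter.1 hv).2).1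
    rw [h, (hmate w).2] at h1
    exact B.J_notMem _ ((mem_filter.1 hw).2).1 h1
  let f₁ : Vtx Init G ↪ (Vtx Init G ⊕ Vtx Init G) × (Vtx Init G ⊕ Vtx Init G) :=
    ⟨fun v => (Sum.inl v, Sum.inl (mate v)), fun v w h => Sum.inl_injective (congrArg Prod.fst h)⟩
  let f₂ : Vtx Init G ↪ (Vtx Init G ⊕ Vtx Init G) × (Vtx Init G ⊕ Vtx Init G) :=
    ⟨fun v => (Sum.inl v, Sum.inr v), fun v w h => Sum.inl_injective (congrArg Prod.fst h)⟩
  have hdisj : Disjoint (U.map f₁) (C₀.map f₂) := by
    rw [disjoint_left]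
    intro p hp hp'
    obtain ⟨v, _, rfl⟩ := mem_map.1 hp
    obtain ⟨w, _, h⟩ := mem_map.1 hp'
    exact Sum.inr_ne_inl (congrArg Prod.snd h)
  refine ⟨(U.map f₁).disjUnion (C₀.map f₂) hdisj, ?_, ?_, ?_⟩
  · intro p hp
    rcases mem_disjUnion.1 hp with hp | hp
    · obtain ⟨v, hv, rfl⟩ := mem_map.1 hp
      obtain ⟨i, h1, j, h2, h3⟩ := yes_edge B ch
        (fun i => Function.update (X i) (ch i).1 (ch i).2)
        (fun i => by rw [Function.update_self]) v (mate v)
        ((mem_filter.1 hv).2).1 (hmate v).2 (hmate v).1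
      refine mem_stream.2 (Or.inl ⟨i, v, mate v, ⟨h1, j, h2, ?_⟩, rfl⟩)
      by_cases hj : j = (ch i).1
      · subst hj
        rw [Function.update_self] at h3
        have h4 : (ch i).2 (idx i (ch i).1 v) = X i (ch i).1 (idx i (ch i).1 v) := by
          by_contra h5
          exact (mem_filter.1 hv).2.2 ⟨i, Or.inr (Bool.eq_not_iff.2 h5)⟩
        rwa [h4] at h3
      · rwa [Function.update_of_ne hj] at h3
    · obtain ⟨v, hv, rfl⟩ := mem_map.1 hp
      exact mem_stream.2 (Or.inr ⟨v, hv, rfl⟩)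
  · intro p hp p' hp' hne
    rcases mem_disjUnion.1 hp with hp | hp <;> rcases mem_disjUnion.1 hp' with hp' | hp'
    · obtain ⟨v, hv, rfl⟩ := mem_map.1 hp
      obtain ⟨w, hw, rfl⟩ := mem_map.1 hp'
      have hvw : v ≠ w := fun h => hne (by rw [h])
      refine ⟨fun h => hvw (Sum.inl_injective h), fun h => hUU v hv w hw (Sum.inl_injective h),
        fun h => hUU w hw v hv (Sum.inl_injective h).symm, fun h => hvw ?_⟩
      exact hmate_inj v w ((mem_filter.1 hv).2).1 ((mem_filter.1 hw).2).1 (Sum.inl_injective h)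
    · obtain ⟨v, hv, rfl⟩ := mem_map.1 hp
      obtain ⟨w, hw, rfl⟩ := mem_map.1 hp'
      refine ⟨fun h => (hUC v hv).1 ?_, Sum.inl_ne_inr, fun h => (hUC v hv).2 ?_, Sum.inl_ne_inr⟩
      · have : v = w := Sum.inl_injective h
        rwa [this]
      · have : mate v = w := Sum.inl_injective h
        rwa [this]
    · obtain ⟨v, hv, rfl⟩ := mem_map.1 hp
      obtain ⟨w, hw, rfl⟩ := mem_map.1 hp'
      refine ⟨fun h => (hUC w hw).1 ?_, fun h => (hUC w hw).2 ?_, Sum.inr_ne_inl, Sum.inr_ne_inl⟩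
      · have : v = w := Sum.inl_injective h
        rwa [← this]
      · have : v = mate w := Sum.inl_injective h
        rwa [← this]
    · obtain ⟨v, hv, rfl⟩ := mem_map.1 hp
      obtain ⟨w, hw, rfl⟩ := mem_map.1 hp'
      have hvw : v ≠ w := fun h => hne (by rw [h])
      exact ⟨fun h => hvw (Sum.inl_injective h), Sum.inl_ne_inr, Sum.inr_ne_inl,
        fun h => hvw (Sum.inr_injective h)⟩
  · rw [card_disjUnion, card_map, card_map]
    have h1 := dens_ge_of_bij _ _ hbij (fun a => a ∈ B.I) γ (by simpa using hγ)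
    have h2 : (univ.filter fun v => lab B ch v ∈ B.I) ⊆
        U ∪ univ.filter fun v => BadV ch (fun i j p => !X i j p) v := by
      intro v hv
      by_cases h3 : BadV ch (fun i j p => !X i j p) v
      · exact mem_union_right _ (mem_filter.2 ⟨mem_univ _, h3⟩)
      · exact mem_union_left _ (mem_filter.2 ⟨mem_univ _, (mem_filter.1 hv).2, h3⟩)
    have h5 := (Nat.cast_le (α := ℝ)).2 ((card_le_card h2).trans (card_union_le _ _))
    push_cast at h5 ⊢
    linarith

end Pool.Agent.P.MP_548a57_lc.R
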