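import Pool.Agent.P.MP_548a57_lc.R.Avg
import Pool.Agent.P.MP_548a57_lc.R.Graph
import Pool.Agent.P.MP_548a57_lc.R.Defs

/-!
If one error probability is bounded away from one, the other one is not too small.
-/

namespace Pool.Agent.P.MP_548a57_lc.R

open Finset MeasureTheory

set_option synthInstance.maxSize 2048

variable {k : ℕ} {Init Col : Type} [Fintype Init] [Fintype Col] {η : ℝ}
  {G : Fin k → Gadget Col η}

/-- The declared data, with every bit read through `d`. -/
def dec (d : Bool → Bool) (ch : (i : Fin k) → Chc G i) : (i : Fin k) → Chc G i :=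
  fun i => ((ch i).1, fun p => d ((ch i).2 p))

/-- The stream of given hidden and declared data. -/
noncomputable def str (B : Blueprint k Init Col) (d : Bool → Bool)
    (z : (i : Fin k) → Hid G i × Chc G i) : List (Sym2 (Vtx Init G ⊕ Vtx Init G)) :=
  stream B (dec d fun i => (z i).2) (fun i => (z i).1) (notGood B (dec d fun i => (z i).2))

omit [Fintype Col] in
theorem side {n : ℕ} (e : Vtx Init G ⊕ Vtx Init G ≃ Fin n) (B : Blueprint k Init Col)
    (d : Bool → Bool) (A : RandAlg n) (s r : ℕ) (hs : ∀ ω, (A.alg ω).bits ≤ s) {δ κ ε p q : ℝ}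
    (hκ : 0 ≤ κ) (hε : 0 ≤ ε) [∀ i, Nonempty (Fin (G i).nd)]
    (hone : ∀ (i : Fin k) (b : ℕ), b ≤ s → ∀ (f : Hid G i → Fin b → Bool)
      (T : (Fin b → Bool) → Chc G i → Prop),
      κ ≤ ∑ z : Hid G i × Chc G i, wS z * ind (T (f z.1) z.2) →
      ε ≤ ∑ z : Hid G i × Chc G i, wK r δ z * ind (T (f z.1) z.2))
    (Q : ((i : Fin k) → Chc G i) → ℝ → Prop)
    (E₁ E₂ : ((i : Fin k) → Hid G i × Chc G i) → Set ℝ) (m₁ : ∀ z, MeasurableSet (E₁ z))
    (m₂ : ∀ z, MeasurableSet (E₂ z))
    (h₁ : ∀ z, (∀ i, (z i).2.2 = (z i).1 (z i).2.1) → ∀ x, x ∉ E₁ z → Q (fun i => (z i).2) x)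
    (h₂ : ∀ z, (∀ i, (agr ((z i).1 (z i).2.1) (z i).2.2 : ℝ) ≤ δ * Fintype.card (Idx G i)) →
      ∀ x, Q (fun i => (z i).2) x → x ∈ E₂ z)
    (hp : ∀ z, A.μ.real {ω | (A.alg ω).run ((str B d z).map (Sym2.map e)) ∈ E₁ z} ≤ p)
    (hq : ∀ z, A.μ.real {ω | (A.alg ω).run ((str B d z).map (Sym2.map e)) ∈ E₂ z} ≤ q)
    (hq0 : 0 ≤ q) (hpκ : p ≤ 1 - 2 * (k * κ)) : ε ^ k * (k * κ) ≤ q := by
  let _ := A.ms
  have := A.prob
  have a1 : ∑ z : (i : Fin k) → Hid G i × Chc G i, ∏ i, wS (z i) = 1 := by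
    rw [← Fintype.piFinset_univ, ← prod_univ_sum (fun _ => univ)
      fun (i : Fin k) (z : Hid G i × Chc G i) => wS z]
    exact prod_eq_one fun i _ => sum_wS_one
  have a2 : ∑ z : (i : Fin k) → Hid G i × Chc G i, ∏ i, wK r δ (z i) ≤ 1 := by
    rw [← Fintype.piFinset_univ, ← prod_univ_sum (fun _ => univ)
      fun (i : Fin k) (z : Hid G i × Chc G i) => wK r δ z]
    exact prod_le_one (fun i _ => sum_nonneg fun z _ => wK_nonneg r δ z) fun i _ => sum_wK_le r δ
  have a3 : ∀ z : (i : Fin k) → Hid G i × Chc G i, 0 ≤ ∏ i, wS (z i) :=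
    fun z => prod_nonneg fun i _ => wS_nonneg _
  have a4 : ∀ z : (i : Fin k) → Hid G i × Chc G i, 0 ≤ ∏ i, wK r δ (z i) :=
    fun z => prod_nonneg fun i _ => wK_nonneg r δ _
  refine average A.μ _ _ a3 a1 a4 a2 _ _ (fun z => A.meas _ (m₁ z)) (fun z => A.meas _ (m₂ z))
    (by positivity) (by positivity) hq0 hp hq hpκ fun ω hω => ?_
  let F : (i : Fin k) → ((i' : Fin k) → Chc G i') → Hid G i →
      (Fin (A.alg ω).bits → Bool) → Fin (A.alg ω).bits → Bool := fun i ch X σ =>
    ((edgeList B i (dec d ch) X).map (Sym2.map e)).foldl (A.alg ω).step σ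
  let T : ((i : Fin k) → Chc G i) → (Fin (A.alg ω).bits → Bool) → Prop := fun ch σ =>
    Q ch ((A.alg ω).out (((pendList (notGood B (dec d ch))).map (Sym2.map e)).foldl
      (A.alg ω).step σ))
  have hT : ∀ z : (i : Fin k) → Hid G i × Chc G i,
      T (fun i => (z i).2) (fin F z (A.alg ω).init) =
        Q (fun i => (z i).2) ((A.alg ω).run ((str B d z).map (Sym2.map e))) := by
    intro z
    rw [DetAlg.run, str, stream, List.map_append, List.foldl_append, List.map_flatMap,
      List.foldl_flatMap]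
    rfl
  have key := multi hκ hε k (Hid G) (Chc G) (fun i => wS) (fun i => wK r δ)
    (fun i => wS_nonneg) (fun i => sum_wS_one) (fun i => wK_nonneg r δ)
    (fun i => hone i _ (hs ω)) F (fun i ch ch' h => by
      funext X σ
      simp only [F]
      rw [edgeList_local B i (dec d ch) (dec d ch') X fun i' hi' => by rw [dec, dec, h i' hi']])
    (A.alg ω).init T ?_
  · refine key.trans (sum_le_sum fun z _ => ?_)
    by_cases hz : ∏ i, wK r δ (z i) = 0
    · rw [hz, zero_mul, zero_mul]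
    · rw [hT]
      exact mul_le_mul_of_nonneg_left (ind_mono (h₂ z
        (fun i => wK_ne (prod_ne_zero_iff.1 hz i (mem_univ _))) _)) (a4 z)
  · have b1 : ∀ z : (i : Fin k) → Hid G i × Chc G i, ∏ i, wS (z i) ≤
        (∏ i, wS (z i)) * ind (ω ∈ {ω | (A.alg ω).run ((str B d z).map (Sym2.map e)) ∈ E₁ z}) +
        (∏ i, wS (z i)) * ind (T (fun i => (z i).2) (fin F z (A.alg ω).init)) := by
      intro z
      by_cases hz : ∏ i, wS (z i) = 0
      · rw [hz, zero_mul, zero_mul, add_zero]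
      rw [← mul_add, hT]
      refine le_mul_of_one_le_right (a3 z) ?_
      by_cases h : (A.alg ω).run ((str B d z).map (Sym2.map e)) ∈ E₁ z
      · exact (ind_pos h).ge.trans (le_add_of_nonneg_right (ind_nonneg _))
      · exact (ind_pos (h₁ z (fun i => wS_ne (prod_ne_zero_iff.1 hz i (mem_univ _))) _ h)).ge.trans
          (le_add_of_nonneg_left (ind_nonneg _))
    have b2 := sum_le_sum fun z (_ : z ∈ univ) => b1 z
    rw [sum_add_distrib, a1] at b2
    exact lt_of_add_lt_add_left ((add_lt_of_lt_sub_right hω).trans_le b2)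

theorem both {n : ℕ} (e : Vtx Init G ⊕ Vtx Init G ≃ Fin n) (B : Blueprint k Init Col)
    (hG : ∀ i, 0 < (G i).nz) (A : RandAlg n) (s r : ℕ) (hs : ∀ ω, (A.alg ω).bits ≤ s)
    {δ κ ε p q α γ : ℝ} (hδ : 0 ≤ δ) (hκ : 0 ≤ κ) (hε : 0 ≤ ε) (hα : 0 ≤ α)
    [∀ i, Nonempty (Fin (G i).nd)]
    (hone : ∀ (i : Fin k) (b : ℕ), b ≤ s → ∀ (f : Hid G i → Fin b → Bool)
      (T : (Fin b → Bool) → Chc G i → Prop),
      κ ≤ ∑ z : Hid G i × Chc G i, wS z * ind (T (f z.1) z.2) →
      ε ≤ ∑ z : Hid G i × Chc G i, wK r δ z * ind (T (f z.1) z.2))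
    (hγ : γ * Fintype.card (Lab k Init Col) ≤ B.I.card)
    (hgap : ∀ ch : (i : Fin k) → Chc G i,
      ((notGood B ch).card : ℝ) + k * (η + δ) * Fintype.card (Vtx Init G) <
        α * ((notGood B ch).card + (γ - k * (η + δ)) * Fintype.card (Vtx Init G)))
    (herr : ∀ H : SimpleGraph (Fin n), H.IsBipartite → A.ErrLe α H p q)
    (hpq : max p q ≤ 1 - 2 * (k * κ)) : ε ^ k * (k * κ) ≤ min p q := by
  classical
  choose H hb hst hcov hmat using fun (d : Bool → Bool) (z : (i : Fin k) → Hid G i × Chc G i) =>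
    graph_of_list e (sideOf B) (str B d z) (stream_nodup _ _ _ _) (stream_side _ _ _ _)
  have hp := fun d z => (herr _ (hb d z) _ (hst d z)).1
  have hq := fun d z => (herr _ (hb d z) _ (hst d z)).2
  let z₀ : (i : Fin k) → Hid G i × Chc G i := fun i => Classical.choice inferInstance
  let thr : ((i : Fin k) → Chc G i) → ℝ := fun ch =>
    (notGood B ch).card + k * (η + δ) * Fintype.card (Vtx Init G)
  have hno : ∀ d (z : (i : Fin k) → Hid G i × Chc G i),
      (∀ i, ((univ.filter fun p => d ((z i).2.2 p) = (z i).1 (z i).2.1 p).card : ℝ) ≤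
        δ * Fintype.card (Idx G i)) → matchNum (H d z) ≤ thr (dec d fun i => (z i).2) := by
    intro d z h
    obtain ⟨C, h1, h2⟩ := cover_no B hG (dec d fun i => (z i).2) (fun i => (z i).1) δ h
    exact ((Nat.cast_le (α := ℝ)).2 (hcov d z C h1)).trans h2
  have hyes : ∀ d (z : (i : Fin k) → Hid G i × Chc G i),
      (∀ i, ((univ.filter fun p => d ((z i).2.2 p) = !(z i).1 (z i).2.1 p).card : ℝ) ≤
        δ * Fintype.card (Idx G i)) → thr (dec d fun i => (z i).2) < α * matchNum (H d z) := by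
    intro d z h
    obtain ⟨M, h1, h2, h3⟩ := match_yes B hG (dec d fun i => (z i).2) (fun i => (z i).1) δ γ hγ h
    exact (hgap _).trans_le (mul_le_mul_of_nonneg_left
      (h3.trans ((Nat.cast_le (α := ℝ)).2 (hmat d z M h1 h2))) hα)
  refine le_min ?_ ?_
  · refine side e B not A s r hs hκ hε hone (fun ch x => x ≤ thr (dec not ch))
      (fun z => {x | matchNum (H not z) < x}) (fun z => {x | x < α * matchNum (H not z)})
      (fun z => measurableSet_Ioi) (fun z => measurableSet_Iio) (fun z h x hx => ?_)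
      (fun z h x hx => ?_) (hq not) (hp not) (measureReal_nonneg.trans (hp id z₀))
      ((le_max_right _ _).trans hpq)
    · refine (not_lt.1 hx).trans (hno not z fun i => ?_)
      simp only [h i, Bool.not_eq_self, filter_false, card_empty, Nat.cast_zero]
      positivity
    · refine lt_of_le_of_lt hx (hyes not z fun i => ?_)
      simp only [Bool.not_inj_iff]
      exact h i
  · refine side e B id A s r hs hκ hε hone (fun ch x => thr (dec id ch) < x)
      (fun z => {x | x < α * matchNum (H id z)}) (fun z => {x | matchNum (H id z) < x})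
      (fun z => measurableSet_Iio) (fun z => measurableSet_Ioi) (fun z h x hx => ?_)
      (fun z h x hx => ?_) (hp id) (hq id) (measureReal_nonneg.trans (hq id z₀))
      ((le_max_left _ _).trans hpq)
    · refine (hyes id z fun i => ?_).trans_le (not_lt.1 hx)
      simp only [h i, id, Bool.eq_not_self, filter_false, card_empty, Nat.cast_zero]
      positivity
    · exact lt_of_le_of_lt (hno id z h) hx

end Pool.Agent.P.MP_548a57_lc.R
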