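import Pool.Agent.P.MP_548a57_lc.BlueMain
import Pool.Agent.P.MP_548a57_lc.Greedy
import Pool.Agent.P.MP_548a57_lc.R.Side
import Pool.Agent.P.MP_548a57_lc.R.Par

/-!
No randomised semi-streaming algorithm with nearly one-sided error beats one half.
-/

namespace Pool.Agent.P.MP_548a57_lc.R

open Finset MeasureTheory Filter

set_option synthInstance.maxSize 2048

theorem log_small (K : ℝ) (D : ℕ) :
    ∀ᶠ n : ℕ in atTop, 1 ≤ Nat.log 2 n ∧ K * (Nat.log 2 n : ℝ) ^ D < n := by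
  have h1 := (tendsto_pow_const_div_const_pow_of_one_lt D (one_lt_two (α := ℝ))).const_mul K
  rw [mul_zero] at h1
  obtain ⟨L, hL⟩ := eventually_atTop.1 (h1.eventually (gt_mem_nhds one_pos))
  filter_upwards [eventually_ge_atTop (2 ^ (L + 1))] with n hn
  have h2 : L + 1 ≤ Nat.log 2 n := Nat.le_log_of_pow_le one_lt_two hn
  have h3 := hL _ ((Nat.le_succ L).trans h2)
  rw [← mul_div_assoc, div_lt_one (by positivity)] at h3
  refine ⟨by omega, h3.trans_le ?_⟩
  exact_mod_cast Nat.pow_log_le_self 2 (Nat.pos_of_ne_zero (by positivity)|>.trans_le hn).ne'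

theorem not_achievable (α : ℝ) (hα : 1 / 2 < α) :
    ¬ Achievable (fun n => {G : SimpleGraph (Fin n) | G.IsBipartite}) α := by
  classical
  rintro ⟨A, p, q, ⟨c, C, n₀, hmem⟩, herr, ρ, hρ, D₀, hev⟩
  set α' : ℝ := min α 1 with hα'
  have hα1 : 1 / 2 < α' := lt_min hα (by norm_num)
  have hα2 : α' ≤ 1 := min_le_right _ _
  have hα3 : α' ≤ α := min_le_left _ _
  set ε : ℝ := (α' - 1 / 2) / 2 with hεdef
  have hε : 0 < ε := by rw [hεdef]; linarith
  obtain ⟨D, M, S, B, β, hk, hS, hβ, hbad, hI⟩ := blueprint_exists ε hε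
  have : Nonempty (Fin S) := ⟨⟨0, hS⟩⟩
  have hkR : (0 : ℝ) < (D * M : ℕ) := by exact_mod_cast hk
  set δ : ℝ := ε * β / (2 * (D * M : ℕ)) with hδ
  have hδ0 : 0 < δ := by positivity
  set κ : ℝ := (1 - ρ) / 2 / (D * M : ℕ) with hκ
  have hρ0 : 0 < (1 - ρ) / 2 := by linarith
  have hκ0 : 0 < κ := by positivity
  have hkκ : (D * M : ℕ) * κ = (1 - ρ) / 2 := mul_div_cancel₀ _ hkR.ne'
  obtain ⟨r, hr⟩ := pow_unbounded_of_one_lt (2 / δ) (one_lt_two (α := ℝ))
  have hr' : 4 * par r ≤ δ := by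
    have h1 := (par_bounds r).2.1
    rw [inv_eq_one_div, le_div_iff₀ (by positivity)] at h1
    rw [div_lt_iff₀ hδ0] at hr
    exact le_of_mul_le_mul_left (by linarith) (pow_pos (two_pos (α := ℝ)) r)
  have hc₁ : 0 < cst₁ r κ := by unfold cst₁; positivity
  obtain ⟨c', hc'⟩ := exists_nat_gt (max (4 * cst₁ r κ / δ) (2 * (D * M : ℕ) * cst₁ r κ))
  have hc'1 : 4 * cst₁ r κ < c' * δ := (div_lt_iff₀ hδ0).1 ((le_max_left _ _).trans_lt hc')
  have hc'2 : 2 * (D * M : ℕ) * cst₁ r κ < c' := (le_max_right _ _).trans_lt hc'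
  have hc'0 : (0 : ℝ) < c' := lt_trans (by positivity) hc'2
  obtain ⟨n₁, hn₁⟩ := exists_nat_gt (4 * cst₀ r κ / δ)
  obtain ⟨n₂, hn₂⟩ := eventually_atTop.1 (hev.and (log_small
    (2 * ((D * M : ℕ) * (cst₀ r κ - Real.log (κ / 4)) - Real.log ((1 - ρ) / 2))) D₀))
  have hcI : 0 < Fintype.card (Bool × Fin S) := Fintype.card_pos
  obtain ⟨G, hG, hG', hn₀, hpar⟩ := params2 (Cl D) (D * M) hk (Fintype.card (Bool × Fin S)) hcI
    δ 1 hδ0 one_pos (c * c') (C + D₀) (n₀ + n₂ + n₁ * Fintype.card (Cl D))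
  have hV : Fintype.card (Vtx (Bool × Fin S) G) =
      Fintype.card (Bool × Fin S) * ∏ i, (2 * (G i).nz) := by
    simp [Vtx, Fintype.card_prod, Fintype.card_pi]
  rw [← hV] at hn₀ hpar
  set N := Fintype.card (Vtx (Bool × Fin S) G) with hN
  have hWn : Fintype.card (Vtx (Bool × Fin S) G ⊕ Vtx (Bool × Fin S) G) = 2 * N := by
    rw [Fintype.card_sum, two_mul]
  obtain ⟨⟨hmax, hmin⟩, hL1, hL2⟩ := hn₂ (2 * N) (by omega)
  have hN0 : (0 : ℝ) < N := by
    have : N ≠ 0 := fun h => by simp [h] at hL1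
    positivity
  set L : ℝ := ((Nat.log 2 (2 * N) : ℕ) : ℝ) with hL
  have hL0 : 1 ≤ L := by rw [hL]; exact_mod_cast hL1
  have hLD : 1 ≤ L ^ D₀ := one_le_pow₀ hL0
  have hnd : ∀ i, Nonempty (Fin (G i).nd) := fun i => ⟨⟨0, by
    have h1 := lt_of_le_of_lt (by positivity) (hpar i)
    rw [one_pow, one_mul] at h1
    exact_mod_cast h1⟩⟩
  have key := both (Fintype.equivFinOfCardEq hWn) B hG (A (2 * N)) _ r (hmem _ (by omega))
    (α := α') (γ := (1 - ε) * β) (p := p (2 * N)) (q := q (2 * N))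
    (ε := Real.exp (-(cst₀ r κ - Real.log (κ / 4) + cst₁ r κ * (2 * N / (c' * L ^ D₀)))))
    hδ0.le hκ0.le (Real.exp_pos _).le (by linarith) (fun i b hb f T => ?_) hI (fun ch => ?_)
    (fun H hH l hl => ?_) (by rw [hkκ]; linarith)
  · refine absurd (key.trans hmin) (not_le.2 ?_)
    rw [hkκ, ← Real.exp_nat_mul, ← Real.exp_log hρ0, ← Real.exp_add, Real.exp_lt_exp]
    push_cast at hL2 ⊢
    have h1 : (D : ℝ) * M * (cst₁ r κ * (2 * N / (c' * L ^ D₀))) ≤ N / L ^ D₀ := by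
      rw [← mul_div_assoc, ← mul_div_assoc, div_le_div_iff₀ (by positivity) (by positivity)]
      push_cast at hc'2
      have := mul_le_mul_of_nonneg_right hc'2.le (mul_pos hN0 (one_pos.trans_le hLD)).le
      linarith
    have h2 := (lt_div_iff₀ (one_pos.trans_le hLD)).2 hL2
    rw [mul_div_assoc] at h2 ⊢
    linarith
  · obtain ⟨j⟩ := hnd i
    have h1 := (card_fiber_of_bij _ _ (idx_bij (Init := Bool × Fin S) hG i j) fun _ => True).2
    have h2 := hpar i
    rw [← card_rest, one_pow, one_mul] at h2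
    have h3 : n₁ ≤ Fintype.card (Idx G i) := by
      have h4 := Fintype.card_congr ((G i).φ j)
      rw [Fintype.card_prod, Fintype.card_fin, Fintype.card_fin] at h4
      have h5 : n₁ * Fintype.card (Cl D) ≤ (G i).nl * Fintype.card (Cl D) := by
        have := hG' i
        omega
      have : Nonempty (Suf G i) := ⟨fun i' => (false, ⟨0, hG i'.1⟩)⟩
      rw [Fintype.card_prod, Fintype.card_fin]
      exact (Nat.le_of_mul_le_mul_right h5 Fintype.card_pos).trans
        (Nat.le_mul_of_pos_right _ Fintype.card_pos)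
    have : Nonempty (Pre G i) := ⟨fun i' => (false, ⟨0, hG i'.1⟩)⟩
    have h4 : 0 < Fintype.card ((Bool × Fin S) × Pre G i × Bool × Cl D) := Fintype.card_pos
    rw [← hN] at h1
    generalize Fintype.card ((Bool × Fin S) × Pre G i × Bool × Cl D) = R at h1 h2 h4
    have h5 : (N : ℝ) = R * Fintype.card (Idx G i) := by exact_mod_cast h1
    have h6 : (1 : ℝ) ≤ R := by exact_mod_cast h4
    have h7 : (n₁ : ℝ) ≤ Fintype.card (Idx G i) := by exact_mod_cast h3
    refine one_phase' r _ (u := Fintype.card (Idx G i) / (c' * L ^ D₀))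
      (by simpa using Nat.pow_le_pow_right two_pos hb) hr' hκ0 (by positivity) ?_ ?_ ?_ f T
    · rw [Fintype.card_fin, div_mul_eq_mul_div, le_div_iff₀ (by positivity)]
      refine le_trans ?_ (mul_le_mul_of_nonneg_left h2.le (Nat.cast_nonneg _))
      push_cast
      rw [← hL, h5, pow_add]
      have : (0 : ℝ) ≤ c * c' * L ^ C * L ^ D₀ * R * Fintype.card (Idx G i) := by positivity
      linarith
    · refine div_le_div_of_nonneg_right ?_ (by positivity)
      nlinarith [Nat.cast_nonneg (α := ℝ) (Fintype.card (Idx G i))]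
    · have h8 : cst₁ r κ * (Fintype.card (Idx G i) / (c' * L ^ D₀)) ≤
          δ * Fintype.card (Idx G i) / 4 := by
        rw [← mul_div_assoc, div_le_div_iff₀ (by positivity) (by positivity)]
        have h9 := mul_le_mul_of_nonneg_left hLD (mul_pos hc'0 hδ0).le
        have := mul_le_mul_of_nonneg_right (hc'1.le.trans ((mul_one _).ge.trans h9))
          (Nat.cast_nonneg (α := ℝ) (Fintype.card (Idx G i)))
        linarith
      rw [div_lt_iff₀ hδ0] at hn₁
      have := mul_le_mul_of_nonneg_right h7 hδ0.le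
      linarith
  · have h1 : ((D * M : ℕ) : ℝ) * (δ + δ) = ε * β := by rw [hδ]; field_simp; ring
    have h2 := mul_le_mul_of_nonneg_left (notGood_card B ch hbad) (sub_nonneg.2 hα2)
    have h3 : α' = 1 / 2 + 2 * ε := by rw [hεdef]; ring
    have h4 : 1 - α' + ε < α' * (1 - 2 * ε) := by
      rw [h3] at hα2 ⊢
      nlinarith
    have h5 := mul_lt_mul_of_pos_right h4 (mul_pos hβ hN0)
    rw [h1, ← hN] at *
    linarith
  · obtain ⟨h1, h2⟩ := herr _ H hH l hl
    have := (A (2 * N)).prob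
    exact ⟨(measureReal_mono fun ω hω => lt_of_lt_of_le hω
      (mul_le_mul_of_nonneg_right hα3 (Nat.cast_nonneg _))).trans h1, h2⟩

theorem achievable_half (𝒢 : (n : ℕ) → Set (SimpleGraph (Fin n))) : Achievable 𝒢 (1 / 2) := by
  obtain ⟨A, ⟨c, C, n₀, h1⟩, h2⟩ := greedy_half
  refine ⟨fun n => ⟨Unit, Measure.dirac (), inferInstance, fun _ => A n, fun _ => measurable_const⟩,
    fun _ => 0, fun _ => 0, ⟨c, C, n₀, fun n hn _ => h1 n hn⟩, fun n G _ l hl => ?_, 0, one_pos, 0,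
    Eventually.of_forall fun n => ⟨(max_self _).le, (min_self _).le.trans (Real.exp_pos _).le⟩⟩
  obtain ⟨h3, h4⟩ := h2 n G l hl
  simp only [not_lt.2 h3, not_lt.2 h4, Set.ofPred_false, measureReal_empty, le_refl, and_self]

theorem main (𝒢 : (n : ℕ) → Set (SimpleGraph (Fin n)))
    (h : ∀ n (G : SimpleGraph (Fin n)), G.IsBipartite → G ∈ 𝒢 n) :
    IsGreatest {α | Achievable 𝒢 α} (1 / 2) := by
  refine ⟨achievable_half 𝒢, fun α hα => not_lt.1 fun h1 => not_achievable α h1 ?_⟩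
  obtain ⟨A, p, q, h2, h3, h4⟩ := hα
  exact ⟨A, p, q, h2, fun n G hG => h3 n G (h n G hG), h4⟩

end Pool.Agent.P.MP_548a57_lc.R
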