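import Pool.Agent.P.MP_548a57_lc.Final

/-!
For deterministic one-pass algorithms with `O(n polylog n)` bits of memory the best ratio for
estimating the size of a maximum matching is exactly one half.
-/

namespace Pool.Agent.P.MP_548a57_lc.OldDetHalf

open Pool.Agent.P.MP_548a57_lc

theorem result :
    (∃ A : (n : ℕ) → DetAlg n, SemiStreaming A ∧
      ∀ (n : ℕ) (G : SimpleGraph (Fin n)), ApproxOn (1 / 2) (A n) G) ∧
    ∀ α : ℝ, 1 / 2 < α → ∀ A : (n : ℕ) → DetAlg n, SemiStreaming A →
      ¬ ∀ (n : ℕ) (G : SimpleGraph (Fin n)), G.IsBipartite → ApproxOn α (A n) G :=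
  ⟨greedy_half, no_better⟩

end Pool.Agent.P.MP_548a57_lc.OldDetHalf
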