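import Pool.Agent.P.MP_548a57_lc.R.Rev

/-!
One phase and many phases: an event that is likely when the declared word is the hidden word
keeps some weight when the declared word is a noisy negation of the hidden word.
-/

namespace Pool.Agent.P.MP_548a57_lc.R

open Finset

theorem count {Dir Y St : Type} [Fintype Dir] [DecidableEq Dir] [Fintype Y] [DecidableEq Y]
    [Fintype St] (f : (Dir → Y) → St) (s : ℕ) (hs : Fintype.card St ≤ 2 ^ s) (Δ : ℝ)
    (B : St → Dir → Finset Y) (hB : ∀ c j, Real.exp Δ * (B c j).card ≤ Fintype.card Y) :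
    Δ * ∑ X : Dir → Y, ∑ j, (if X j ∈ B (f X) j then (1 : ℝ) else 0) ≤
      (s + Fintype.card Dir) * Fintype.card (Dir → Y) := by
  set L : ℝ := (s + Fintype.card Dir) * Real.log 2 with hL
  have hL2 : Real.exp L = 2 ^ s * 2 ^ Fintype.card Dir := by
    rw [hL, ← Nat.cast_add, Real.exp_nat_mul, Real.exp_log two_pos, pow_add]
  have h1 : ∀ X : Dir → Y, Real.exp (Δ * ∑ j, (if X j ∈ B (f X) j then (1 : ℝ) else 0)) ≤
      ∑ c, ∏ j, (1 + Real.exp Δ * if X j ∈ B c j then (1 : ℝ) else 0) := by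
    intro X
    refine le_trans ?_ (single_le_sum (f := fun c => ∏ j,
      (1 + Real.exp Δ * if X j ∈ B c j then (1 : ℝ) else 0))
      (fun c _ => prod_nonneg fun j _ => by positivity) (mem_univ (f X)))
    rw [mul_sum, Real.exp_sum]
    refine prod_le_prod (fun j _ => (Real.exp_pos _).le) fun j _ => ?_
    split_ifs <;> simp
  have h2 : ∀ c, ∑ X : Dir → Y, ∏ j, (1 + Real.exp Δ * if X j ∈ B c j then (1 : ℝ) else 0) ≤
      2 ^ Fintype.card Dir * Fintype.card (Dir → Y) := by
    intro c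
    rw [← Fintype.piFinset_univ, ← prod_univ_sum (fun _ => univ)
      fun j y => 1 + Real.exp Δ * if y ∈ B c j then (1 : ℝ) else 0]
    refine (prod_le_prod (g := fun _ => 2 * (Fintype.card Y : ℝ))
      (fun j _ => sum_nonneg fun y _ => by positivity) fun j _ => ?_).trans (le_of_eq ?_)
    · have := hB c j
      rw [sum_add_distrib, ← mul_sum, sum_boole]
      simp only [sum_const, card_univ, nsmul_eq_mul, mul_one, filter_mem_eq_inter, univ_inter]
      linarith
    · simp [mul_pow]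
  have h3 : ∑ X : Dir → Y, Real.exp (Δ * ∑ j, (if X j ∈ B (f X) j then (1 : ℝ) else 0)) ≤
      Real.exp L * Fintype.card (Dir → Y) := by
    refine (sum_le_sum fun X _ => h1 X).trans ?_
    rw [sum_comm]
    refine (sum_le_sum fun c _ => h2 c).trans ?_
    rw [sum_const, card_univ, nsmul_eq_mul, hL2, mul_assoc]
    exact mul_le_mul_of_nonneg_right (by exact_mod_cast hs) (by positivity)
  have h4 : ∀ X : Dir → Y, Δ * ∑ j, (if X j ∈ B (f X) j then (1 : ℝ) else 0) ≤
      L - 1 + Real.exp (Δ * ∑ j, (if X j ∈ B (f X) j then (1 : ℝ) else 0)) / Real.exp L := by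
    intro X
    rw [← Real.exp_sub]
    linarith [Real.add_one_le_exp (Δ * ∑ j, (if X j ∈ B (f X) j then (1 : ℝ) else 0) - L)]
  rw [mul_sum]
  refine (sum_le_sum fun X _ => h4 X).trans ?_
  rw [sum_add_distrib, ← sum_div, sum_const, card_univ, nsmul_eq_mul]
  have h5 := (div_le_iff₀' (Real.exp_pos L)).2 h3
  have h6 : L ≤ s + Fintype.card Dir :=
    mul_le_of_le_one_right (by positivity) (by linarith [Real.log_two_lt_d9])
  have h7 := mul_le_mul_of_nonneg_left h6 (Nat.cast_nonneg (α := ℝ) (Fintype.card (Dir → Y)))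
  linarith

variable {ι : Type} [Fintype ι] [DecidableEq ι]

/-- The noisy negation, restricted to words that agree with the hidden word in few places. -/
noncomputable def Kt (r : ℕ) (δ : ℝ) (x w : ι → Bool) : ℝ :=
  if (agr x w : ℝ) ≤ δ * Fintype.card ι then Kn r x w else 0

omit [DecidableEq ι] in
theorem Kt_nonneg (r : ℕ) (δ : ℝ) (x w : ι → Bool) : 0 ≤ Kt r δ x w := by
  unfold Kt
  split_ifs
  · exact Kn_nonneg r x w
  · exact le_rfl

omit [DecidableEq ι] in
theorem Kt_le (r : ℕ) (δ : ℝ) (x w : ι → Bool) : Kt r δ x w ≤ Kn r x w := by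
  unfold Kt
  split_ifs
  · exact le_rfl
  · exact Kn_nonneg r x w

theorem one_class (r : ℕ) {δ κ Δ : ℝ} (hδ : 4 * par r ≤ δ) (hκ : 0 ≤ κ) (hΔ : 0 ≤ Δ)
    (hN : 2 * Real.exp (-(δ * Fintype.card ι / 2)) ≤
      (κ / 4 / Real.exp Δ) ^ (2 * 2 ^ r) * (κ / 4 / Real.exp Δ) ^ (2 * 2 ^ r))
    (cnt : (ι → Bool) → ℝ) (hc : ∀ y, 0 ≤ cnt y) (S : Finset (ι → Bool))
    (hS : ∀ y ∈ S, cnt y * 2 ^ Fintype.card ι ≤ Real.exp Δ * ∑ y, cnt y) :
    (κ / 4 / Real.exp Δ) ^ (2 * 2 ^ r) * (κ / 4 / Real.exp Δ) ^ (2 * 2 ^ r) / 2 *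
        (∑ y, cnt y * (if y ∈ S then 1 else 0) - κ / 4 * ∑ y, cnt y) ≤
      ∑ y, cnt y * ∑ w, Kt r δ y w * (if w ∈ S then 1 else 0) := by
  set a := (κ / 4 / Real.exp Δ) ^ (2 * 2 ^ r) * (κ / 4 / Real.exp Δ) ^ (2 * 2 ^ r) with ha
  set tot := ∑ y, cnt y with htot
  have ha0 : 0 ≤ a := by positivity
  have hW : 0 ≤ ∑ y, cnt y * ∑ w, Kt r δ y w * (if w ∈ S then 1 else 0) :=
    sum_nonneg fun y _ => mul_nonneg (hc y) (sum_nonneg fun w _ =>
      mul_nonneg (Kt_nonneg r δ y w) (by positivity))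
  have hg : ∑ y, cnt y * (if y ∈ S then 1 else 0) ≤ tot :=
    sum_le_sum fun y _ => mul_le_of_le_one_right (hc y) (by split_ifs <;> simp)
  have ht0 : 0 ≤ tot := sum_nonneg fun y _ => hc y
  by_cases hr : ∑ y, cnt y * (if y ∈ S then 1 else 0) ≤ κ / 4 * tot
  · exact (mul_nonpos_of_nonneg_of_nonpos (by positivity) (sub_nonpos.2 hr)).trans hW
  have ht : 0 < tot := by
    by_contra h
    have h0 : tot = 0 := le_antisymm (not_lt.1 h) ht0
    rw [h0] at hr hg
    exact hr (by linarith)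
  have hE := Real.exp_pos Δ
  have hE1 := Real.one_le_exp hΔ
  have h2 : (0 : ℝ) < 2 ^ Fintype.card ι := by positivity
  let F : (ι → Bool) → ℝ := fun y =>
    cnt y * (if y ∈ S then 1 else 0) * 2 ^ Fintype.card ι / (Real.exp Δ * tot)
  have hF0 : ∀ y, 0 ≤ F y := fun y => by have := hc y; positivity
  have hFG : ∀ y, F y ≤ if y ∈ S then 1 else 0 := by
    intro y
    by_cases hy : y ∈ S
    · simp only [F, if_pos hy, mul_one]
      exact (div_le_one (by positivity)).2 (hS y hy)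
    · simp [F, hy]
  have hF1 : κ / 4 / Real.exp Δ ≤ (∑ y, F y) / 2 ^ Fintype.card ι := by
    simp only [F, ← sum_div, ← sum_mul]
    rw [div_right_comm _ (Real.exp Δ * tot), mul_div_cancel_right₀ _ h2.ne',
      div_le_div_iff₀ hE (by positivity)]
    nlinarith
  have hG1 : κ / 4 / Real.exp Δ ≤
      (∑ y, (if y ∈ S then (1 : ℝ) else 0)) / 2 ^ Fintype.card ι :=
    hF1.trans (div_le_div_of_nonneg_right (sum_le_sum fun y _ => hFG y) h2.le)
  have key := (mul_le_mul (pow_le_pow_left₀ (by positivity) hF1 _)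
    (pow_le_pow_left₀ (by positivity) hG1 _) (by positivity)
    (pow_nonneg (div_nonneg (sum_nonneg fun y _ => hF0 y) h2.le) _)).trans
    (rev r F (fun y => if y ∈ S then 1 else 0) hF0 fun y => by positivity)
  have hm : 2 * 2 ^ r ≠ 0 := by positivity
  have h3 : ∀ y, ∑ w, Kn r y w * (F y ^ (2 * 2 ^ r) *
      (if w ∈ S then (1 : ℝ) else 0) ^ (2 * 2 ^ r)) ≤ 2 ^ Fintype.card ι / tot *
        (cnt y * ∑ w, Kt r δ y w * (if w ∈ S then 1 else 0) + cnt y * (a / 2)) := by
    intro y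
    have h4 : F y ^ (2 * 2 ^ r) ≤ 2 ^ Fintype.card ι / tot * cnt y := by
      refine (pow_le_of_le_one (hF0 y) ((hFG y).trans (by split_ifs <;> simp)) hm).trans ?_
      rw [div_mul_eq_mul_div, div_le_div_iff₀ (by positivity) ht]
      have h5 : cnt y * (if y ∈ S then 1 else 0) ≤ cnt y :=
        mul_le_of_le_one_right (hc y) (by split_ifs <;> simp)
      have h6 := mul_le_mul_of_nonneg_left hE1 (hc y)
      have h7 := mul_le_mul_of_nonneg_right (h5.trans ((mul_one _).ge.trans h6))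
        (mul_pos h2 ht).le
      linarith
    have h5 : ∑ w, Kn r y w * (if w ∈ S then (1 : ℝ) else 0) ^ (2 * 2 ^ r) ≤
        ∑ w, Kt r δ y w * (if w ∈ S then 1 else 0) + a / 2 := by
      refine le_trans ?_ (add_le_add_right ((tail r hδ y).trans (by linarith)) _)
      rw [← sum_add_distrib]
      refine sum_le_sum fun w _ => ?_
      have := Kn_nonneg r y w
      unfold Kt
      split_ifs <;> simp [hm, this]
    simp only [mul_left_comm (Kn r y _), ← mul_sum]
    rw [← mul_add, ← mul_assoc]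
    exact mul_le_mul h4 h5 (sum_nonneg fun w _ => mul_nonneg (Kn_nonneg r y w) (by positivity))
      (by have := hc y; positivity)
  have h6 := key.trans (div_le_div_of_nonneg_right (sum_le_sum fun y _ => h3 y) h2.le)
  rw [← mul_sum, sum_add_distrib, ← sum_mul, ← htot, ← ha, div_mul_eq_mul_div, div_right_comm,
    mul_div_cancel_left₀ _ h2.ne', le_div_iff₀ ht] at h6
  have h7 := mul_le_mul_of_nonneg_left hg ha0
  have h8 : 0 ≤ a * (κ * tot) := by positivity
  nlinarith

open Classical in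
/-- The indicator of a statement. -/
noncomputable def ind (P : Prop) : ℝ := if P then 1 else 0

theorem ind_nonneg (P : Prop) : 0 ≤ ind P := by
  unfold ind
  split_ifs <;> simp

theorem ind_le_one (P : Prop) : ind P ≤ 1 := by
  unfold ind
  split_ifs <;> simp

theorem ind_pos {P : Prop} (h : P) : ind P = 1 := if_pos h

theorem ind_neg {P : Prop} (h : ¬ P) : ind P = 0 := if_neg h

theorem ind_mono {P Q : Prop} (h : P → Q) : ind P ≤ ind Q := by
  by_cases hP : P
  · rw [ind_pos hP, ind_pos (h hP)]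
  · rw [ind_neg hP]
    exact ind_nonneg Q

theorem one_phase {Dir St : Type} [Fintype Dir] [DecidableEq Dir] [Fintype St] (r s : ℕ)
    {δ κ Δ : ℝ} (hs : Fintype.card St ≤ 2 ^ s) (hδ : 4 * par r ≤ δ) (hκ : 0 ≤ κ) (hΔ : 0 < Δ)
    (hΔs : 2 * ((s : ℝ) + Fintype.card Dir) ≤ κ * Δ * Fintype.card Dir)
    (hN : 2 * Real.exp (-(δ * Fintype.card ι / 2)) ≤
      (κ / 4 / Real.exp Δ) ^ (2 * 2 ^ r) * (κ / 4 / Real.exp Δ) ^ (2 * 2 ^ r))
    (f : (Dir → ι → Bool) → St) (T : St → Dir × (ι → Bool) → Prop)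
    (hT : κ * (Fintype.card (Dir → ι → Bool) * Fintype.card Dir) ≤
      ∑ X, ∑ j, ind (T (f X) (j, X j))) :
    (κ / 4 / Real.exp Δ) ^ (2 * 2 ^ r) * (κ / 4 / Real.exp Δ) ^ (2 * 2 ^ r) / 2 * (κ / 4) *
        (Fintype.card (Dir → ι → Bool) * Fintype.card Dir) ≤
      ∑ X, ∑ j, ∑ w, Kt r δ (X j) w * ind (T (f X) (j, w)) := by
  classical
  let cnt : St → Dir → (ι → Bool) → ℝ := fun c j y =>
    ∑ X : Dir → ι → Bool, if f X = c ∧ X j = y then 1 else 0
  have hc : ∀ c j y, 0 ≤ cnt c j y := fun c j y => sum_nonneg fun X _ => by positivity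
  have fib : ∀ (j : Dir) (H : St → (ι → Bool) → ℝ),
      ∑ c, ∑ y, cnt c j y * H c y = ∑ X : Dir → ι → Bool, H (f X) (X j) := by
    intro j H
    simp only [cnt, sum_mul]
    rw [sum_congr rfl fun c _ => sum_comm, sum_comm]
    refine sum_congr rfl fun X _ => ?_
    simp [ite_and]
  let B : St → Dir → Finset (ι → Bool) := fun c j =>
    univ.filter fun y => Real.exp Δ * ∑ y, cnt c j y < cnt c j y * 2 ^ Fintype.card ι
  have hB : ∀ c j, Real.exp Δ * (B c j).card ≤ Fintype.card (ι → Bool) := by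
    intro c j
    rcases (B c j).eq_empty_or_nonempty with h | ⟨y, hy⟩
    · simp [h]
    have h2 : (0 : ℝ) < 2 ^ Fintype.card ι := by positivity
    have h1 : ∑ y ∈ B c j, Real.exp Δ * ∑ y, cnt c j y ≤
        ∑ y, cnt c j y * 2 ^ Fintype.card ι :=
      (sum_le_sum fun y hy => (mem_filter.1 hy).2.le).trans (sum_le_sum_of_subset_of_nonneg
        (subset_univ _) fun y _ _ => mul_nonneg (hc c j y) h2.le)
    have h3 : 0 < ∑ y, cnt c j y := by
      have h4 := (mul_nonneg (Real.exp_pos Δ).le (sum_nonneg fun y _ => hc c j y)).trans_lt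
        (mem_filter.1 hy).2
      exact ((mul_pos_iff_of_pos_right h2).1 h4).trans_le
        (single_le_sum (fun y _ => hc c j y) (mem_univ y))
    rw [sum_const, nsmul_eq_mul, ← sum_mul] at h1
    rw [Fintype.card_fun, Fintype.card_bool]
    push_cast
    refine le_of_mul_le_mul_right ?_ h3
    linarith
  have h1 := count f s hs Δ B hB
  let S : St → Dir → Finset (ι → Bool) := fun c j => univ.filter fun y => T c (j, y) ∧ y ∉ B c j
  have h2 := sum_le_sum fun (j : Dir) (_ : j ∈ univ) => sum_le_sum fun (c : St) (_ : c ∈ univ) =>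
    one_class r hδ hκ hΔ.le hN (cnt c j) (hc c j) (S c j) fun y hy =>
      not_lt.1 fun h => (mem_filter.1 hy).2.2 (mem_filter.2 ⟨mem_univ _, h⟩)
  have h3 : ∀ j, ∑ c, ∑ y, cnt c j y = Fintype.card (Dir → ι → Bool) := by
    intro j
    simpa using fib j fun _ _ => 1
  simp only [← mul_sum, sum_sub_distrib, h3] at h2
  simp only [fib _ fun c y => if y ∈ S c _ then (1 : ℝ) else 0,
    fib _ fun c y => ∑ w, Kt r δ y w * if w ∈ S c _ then (1 : ℝ) else 0] at h2
  rw [sum_comm, sum_comm (s := univ (α := Dir))] at h2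
  have h4 : ∑ X, ∑ j, ind (T (f X) (j, X j)) ≤
      ∑ X : Dir → ι → Bool, ∑ j, (if X j ∈ S (f X) j then (1 : ℝ) else 0) +
      ∑ X : Dir → ι → Bool, ∑ j, (if X j ∈ B (f X) j then (1 : ℝ) else 0) := by
    simp only [← sum_add_distrib]
    refine sum_le_sum fun X _ => sum_le_sum fun j _ => ?_
    by_cases h : T (f X) (j, X j)
    · by_cases h' : X j ∈ B (f X) j <;> simp [S, h, h', ind_pos]
    · rw [ind_neg h]
      positivity
  refine le_trans ?_ (h2.trans (sum_le_sum fun X _ => sum_le_sum fun j _ =>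
    sum_le_sum fun w _ => mul_le_mul_of_nonneg_left ?_ (Kt_nonneg r δ _ _)))
  · rw [mul_assoc]
    refine mul_le_mul_of_nonneg_left ?_ (by positivity)
    rw [sum_const, card_univ, nsmul_eq_mul]
    have h5 := mul_le_mul_of_nonneg_right hΔs
      (Nat.cast_nonneg (α := ℝ) (Fintype.card (Dir → ι → Bool)))
    have h6 : 2 * ∑ X : Dir → ι → Bool, ∑ j, (if X j ∈ B (f X) j then (1 : ℝ) else 0) ≤
        κ * (Fintype.card (Dir → ι → Bool) * Fintype.card Dir) :=
      le_of_mul_le_mul_left (by linarith) hΔ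
    linarith
  · split_ifs with h
    · exact (ind_pos (mem_filter.1 h).2.1).ge
    · exact ind_nonneg _

/-- The memory after all the phases. -/
def fin {St : Type} {k : ℕ} {H Ch : Fin k → Type}
    (F : (i : Fin k) → ((i' : Fin k) → Ch i') → H i → St → St) (z : (i : Fin k) → H i × Ch i)
    (init : St) : St :=
  (List.finRange k).foldl (fun σ i => F i (fun i' => (z i').2) (z i).1 σ) init

theorem multi {St : Type} {κ ε : ℝ} (hκ : 0 ≤ κ) (hε : 0 ≤ ε) : ∀ (k : ℕ) (H Ch : Fin k → Type)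
    [∀ i, Fintype (H i)] [∀ i, Fintype (Ch i)] (S K : (i : Fin k) → H i × Ch i → ℝ),
    (∀ i z, 0 ≤ S i z) → (∀ i, ∑ z, S i z = 1) → (∀ i z, 0 ≤ K i z) →
    (∀ i (f : H i → St) (T : St → Ch i → Prop), κ ≤ ∑ z, S i z * ind (T (f z.1) z.2) →
      ε ≤ ∑ z, K i z * ind (T (f z.1) z.2)) →
    ∀ F : (i : Fin k) → ((i' : Fin k) → Ch i') → H i → St → St,
    (∀ i ch ch', (∀ i', i' < i → ch i' = ch' i') → F i ch = F i ch') →
    ∀ (init : St) (T : ((i : Fin k) → Ch i) → St → Prop),
    k * κ < ∑ z : (i : Fin k) → H i × Ch i,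
      (∏ i, S i (z i)) * ind (T (fun i => (z i).2) (fin F z init)) →
    ε ^ k ≤ ∑ z : (i : Fin k) → H i × Ch i,
      (∏ i, K i (z i)) * ind (T (fun i => (z i).2) (fin F z init)) := by
  intro k
  induction k with
  | zero =>
    intro H Ch _ _ S K _ _ _ _ F _ init T h
    simp only [univ_eq_empty, prod_empty, one_mul, Nat.cast_zero, zero_mul, pow_zero,
      univ_unique, sum_singleton] at h ⊢
    by_contra h1
    exact h.ne' (ind_neg fun h2 => h1 (ind_pos h2).ge)
  | succ k ih =>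
    intro H Ch _ _ S K hS0 hS1 hK0 hone F hF init T h
    have hne : ∀ i, Nonempty (H i × Ch i) := fun i => by
      by_contra h0
      have := hS1 i
      rw [not_nonempty_iff] at h0
      simp at this
    let ch₀ : (i : Fin (k + 1)) → Ch i := fun i => (Classical.choice (hne i)).2
    let F' : Ch 0 → (i : Fin k) → ((i' : Fin k) → Ch i'.succ) → H i.succ → St → St :=
      fun c i ch => F i.succ (Fin.cons c ch)
    let V : ((i : Fin (k + 1)) → H i × Ch i → ℝ) → St → Ch 0 → ℝ := fun W σ c =>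
      ∑ z : (i : Fin k) → H i.succ × Ch i.succ,
        (∏ i : Fin k, W i.succ (z i)) * ind (T (Fin.cons c fun i => (z i).2) (fin (F' c) z σ))
    have hV : ∀ W : (i : Fin (k + 1)) → H i × Ch i → ℝ, ∑ z : (i : Fin (k + 1)) → H i × Ch i,
        (∏ i, W i (z i)) * ind (T (fun i => (z i).2) (fin F z init)) =
        ∑ z₀, W 0 z₀ * V W (F 0 ch₀ z₀.1 init) z₀.2 := by
      intro W
      rw [← (Fin.consEquiv fun i => H i × Ch i).sum_comp, Fintype.sum_prod_type]
      refine sum_congr rfl fun z₀ _ => ?_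
      rw [mul_sum]
      refine sum_congr rfl fun z _ => ?_
      have e1 : (fun i => ((Fin.consEquiv fun i => H i × Ch i) (z₀, z) i).2) =
          (Fin.cons z₀.2 fun i => (z i).2 : (i : Fin (k + 1)) → Ch i) :=
        funext fun i => Fin.cases rfl (fun _ => rfl) i
      have e2 : fin F ((Fin.consEquiv fun i => H i × Ch i) (z₀, z)) init =
          fin (F' z₀.2) z (F 0 ch₀ z₀.1 init) := by
        unfold fin
        rw [e1, List.finRange_succ, List.foldl_cons, List.foldl_map,
          hF 0 _ ch₀ fun i' hi' => absurd hi' (Fin.not_lt_zero _)]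
        rfl
      rw [e1, e2, Fin.prod_univ_succ, mul_assoc]
      rfl
    have hV0 : ∀ σ c, 0 ≤ V K σ c := fun σ c => sum_nonneg fun z _ =>
      mul_nonneg (prod_nonneg fun i _ => hK0 _ _) (ind_nonneg _)
    have hV1 : ∀ σ c, V S σ c ≤ 1 := by
      intro σ c
      refine (sum_le_sum fun z _ => mul_le_of_le_one_right (prod_nonneg fun i _ => hS0 _ _)
        (ind_le_one _)).trans (le_of_eq ?_)
      rw [← Fintype.piFinset_univ, ← prod_univ_sum (fun _ => univ) fun i : Fin k => S i.succ]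
      simp [hS1]
    have hV2 : ∀ σ c, k * κ < V S σ c → ε ^ k ≤ V K σ c := fun σ c =>
      ih _ _ (fun i => S i.succ) (fun i => K i.succ) (fun i => hS0 _) (fun i => hS1 _)
        (fun i => hK0 _) (fun i => hone _) (F' c) (fun i ch ch' hc => hF _ _ _ fun i' =>
          Fin.cases (fun _ => rfl) (fun i'' hi => hc i'' (Fin.succ_lt_succ_iff.1 hi)) i') σ
        fun ch σ => T (Fin.cons c ch) σ
    rw [hV] at h ⊢
    have h1 := hone 0 (fun X => F 0 ch₀ X init) (fun σ c => k * κ < V S σ c) ?_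
    · rw [pow_succ]
      refine (mul_le_mul_of_nonneg_left h1 (pow_nonneg hε k)).trans ?_
      rw [mul_sum]
      refine sum_le_sum fun z₀ _ => ?_
      rw [mul_left_comm]
      refine mul_le_mul_of_nonneg_left ?_ (hK0 _ _)
      by_cases h2 : k * κ < V S (F 0 ch₀ z₀.1 init) z₀.2
      · rw [ind_pos h2, mul_one]
        exact hV2 _ _ h2
      · rw [ind_neg h2, mul_zero]
        exact hV0 _ _
    · have h2 : ∑ z₀, S 0 z₀ * V S (F 0 ch₀ z₀.1 init) z₀.2 ≤
          ∑ z₀, S 0 z₀ * (k * κ + ind (k * κ < V S (F 0 ch₀ z₀.1 init) z₀.2)) := by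
        refine sum_le_sum fun z₀ _ => mul_le_mul_of_nonneg_left ?_ (hS0 _ _)
        by_cases h2 : k * κ < V S (F 0 ch₀ z₀.1 init) z₀.2
        · rw [ind_pos h2]
          exact (hV1 _ _).trans (le_add_of_nonneg_left (by positivity))
        · rw [ind_neg h2, add_zero]
          exact not_lt.1 h2
      simp only [mul_add, sum_add_distrib, ← sum_mul, hS1] at h2
      push_cast at h
      linarith

end Pool.Agent.P.MP_548a57_lc.R
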