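import Mathlib

/-!
A reverse two-function inequality on the cube for the noisy negation, and a tail bound.
-/

namespace Pool.Agent.P.MP_548a57_lc.R

open Finset

theorem mean_pow (a b : ℝ) (ha : 0 ≤ a) (hb : 0 ≤ b) (r : ℕ) :
    ((a + b) / 2) ^ (2 * 2 ^ r) ≤ (1 - (2 * 2 ^ r : ℝ)⁻¹) * (a * b) ^ (2 ^ r) +
      (2 * 2 ^ r : ℝ)⁻¹ * ((a ^ (2 * 2 ^ r) + b ^ (2 * 2 ^ r)) / 2) := by
  induction r with
  | zero => norm_num; nlinarith
  | succ r ih =>
    have h1 : (1 : ℝ) ≤ 2 ^ r := one_le_pow₀ one_le_two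
    have h2 : (2 * 2 ^ (r + 1) : ℝ)⁻¹ = (2 * 2 ^ r : ℝ)⁻¹ / 2 := by
      rw [pow_succ]; field_simp
    have h3 : 0 ≤ (2 * 2 ^ r : ℝ)⁻¹ := by positivity
    have h4 : (2 * 2 ^ r : ℝ)⁻¹ ≤ 1 := inv_le_one_of_one_le₀ (by linarith)
    have h5 : ((a * b) ^ (2 ^ r)) ^ 2 = a ^ (2 * 2 ^ r) * b ^ (2 * 2 ^ r) := by
      rw [← pow_mul, mul_pow, mul_comm (2 ^ r) 2]
    have e : 2 * 2 ^ (r + 1) = 2 * 2 ^ r * 2 := by ring
    rw [h2, e, pow_mul, pow_mul a, pow_mul b, pow_succ 2 r, pow_mul (a * b)]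
    refine (pow_le_pow_left₀ (by positivity) ih 2).trans ?_
    generalize (2 * 2 ^ r : ℝ)⁻¹ = θ at h3 h4
    generalize (a * b) ^ (2 ^ r) = g at h5
    generalize a ^ (2 * 2 ^ r) = u at h5
    generalize b ^ (2 * 2 ^ r) = v at h5
    have h6 := mul_nonneg (mul_nonneg h3 (sub_nonneg.2 h4)) (sq_nonneg ((u + v) / 2 - g))
    have h7 : θ * g ^ 2 = θ * (u * v) := by rw [h5]
    nlinarith

/-- One coordinate of the noisy negation: the bit is kept with probability `a`. -/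
def kr (a : ℝ) (x w : Bool) : ℝ := if x = w then a else 1 - a

/-- The probability that the bit is kept. -/
noncomputable def par (r : ℕ) : ℝ := (1 - (1 - (2 * 2 ^ r : ℝ)⁻¹) ^ 2) / 2

theorem par_bounds (r : ℕ) : 0 ≤ par r ∧ par r ≤ (2 * 2 ^ r : ℝ)⁻¹ ∧ par r ≤ 1 := by
  have h1 : (1 : ℝ) ≤ 2 ^ r := one_le_pow₀ one_le_two
  have h3 : 0 ≤ (2 * 2 ^ r : ℝ)⁻¹ := by positivity
  have h4 : (2 * 2 ^ r : ℝ)⁻¹ ≤ 1 := inv_le_one_of_one_le₀ (by linarith)
  unfold par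
  refine ⟨by nlinarith, by nlinarith, by nlinarith⟩

theorem kr_nonneg (r : ℕ) (x w : Bool) : 0 ≤ kr (par r) x w := by
  obtain ⟨h1, -, h2⟩ := par_bounds r
  unfold kr
  split_ifs <;> linarith

theorem two_point (r : ℕ) (A B : Bool → ℝ) (hA : ∀ x, 0 ≤ A x) (hB : ∀ x, 0 ≤ B x) :
    ((A true + A false) / 2) ^ (2 * 2 ^ r) * ((B true + B false) / 2) ^ (2 * 2 ^ r) ≤
      (∑ x, ∑ w, kr (par r) x w * (A x ^ (2 * 2 ^ r) * B w ^ (2 * 2 ^ r))) / 2 := by
  have h1 : (1 : ℝ) ≤ 2 ^ r := one_le_pow₀ one_le_two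
  have h3 : 0 ≤ (2 * 2 ^ r : ℝ)⁻¹ := by positivity
  have h4 : (2 * 2 ^ r : ℝ)⁻¹ ≤ 1 := inv_le_one_of_one_le₀ (by linarith)
  have a1 := hA true
  have a0 := hA false
  have b1 := hB true
  have b0 := hB false
  refine (mul_le_mul (mean_pow _ _ a1 a0 r) (mean_pow _ _ b1 b0 r) (by positivity)
    (add_nonneg (mul_nonneg (sub_nonneg.2 h4) (by positivity)) (by positivity))).trans ?_
  simp only [Fintype.sum_bool, kr, par, if_true, Bool.true_eq_false, Bool.false_eq_true, if_false,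
    mul_comm 2 (2 ^ r : ℕ), pow_mul, mul_pow]
  have x1 := pow_nonneg a1 (2 ^ r)
  have x0 := pow_nonneg a0 (2 ^ r)
  have y1 := pow_nonneg b1 (2 ^ r)
  have y0 := pow_nonneg b0 (2 ^ r)
  generalize (2 * 2 ^ r : ℝ)⁻¹ = θ at h3 h4
  generalize A true ^ (2 ^ r) = u1 at x1
  generalize A false ^ (2 ^ r) = u0 at x0
  generalize B true ^ (2 ^ r) = v1 at y1
  generalize B false ^ (2 ^ r) = v0 at y0
  have c1 : 0 ≤ θ * (1 - θ) := mul_nonneg h3 (sub_nonneg.2 h4)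
  have c2 : 0 ≤ (u1 ^ 2 + u0 ^ 2) / 2 * ((v1 - v0) ^ 2 / 2) := by positivity
  have c3 : 0 ≤ (v1 ^ 2 + v0 ^ 2) / 2 * ((u1 - u0) ^ 2 / 2) := by positivity
  have c4 := mul_nonneg c1 c2
  have c5 := mul_nonneg c1 c3
  have c6 := mul_nonneg (sq_nonneg (1 - θ)) (sq_nonneg (u1 * v0 - u0 * v1))
  nlinarith

theorem sum_cons {n : ℕ} (H : (Fin (n + 1) → Bool) → ℝ) :
    ∑ x, H x = ∑ b : Bool, ∑ x : Fin n → Bool, H (Fin.cons b x) := by
  rw [← (Fin.consEquiv fun _ : Fin (n + 1) => Bool).sum_comp, Fintype.sum_prod_type]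
  rfl

theorem rev_fin (r : ℕ) : ∀ (n : ℕ) (F G : (Fin n → Bool) → ℝ), (∀ x, 0 ≤ F x) → (∀ x, 0 ≤ G x) →
    ((∑ x, F x) / 2 ^ n) ^ (2 * 2 ^ r) * ((∑ x, G x) / 2 ^ n) ^ (2 * 2 ^ r) ≤
      (∑ x, ∑ w, (∏ i, kr (par r) (x i) (w i)) * (F x ^ (2 * 2 ^ r) * G w ^ (2 * 2 ^ r))) /
        2 ^ n := by
  intro n
  induction n with
  | zero => intro F G _ _; simp
  | succ n ih =>
    intro F G hF hG
    have key := two_point r (fun b => (∑ x : Fin n → Bool, F (Fin.cons b x)) / 2 ^ n)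
      (fun b => (∑ x : Fin n → Bool, G (Fin.cons b x)) / 2 ^ n)
      (fun b => div_nonneg (sum_nonneg fun x _ => hF _) (by positivity))
      (fun b => div_nonneg (sum_nonneg fun x _ => hG _) (by positivity))
    have e : ∀ a b : ℝ, (a + b) / 2 ^ (n + 1) = (a / 2 ^ n + b / 2 ^ n) / 2 := fun a b => by ring
    have e' : ∀ a : ℝ, a / 2 ^ (n + 1) = a / 2 ^ n / 2 := fun a => by ring
    rw [sum_cons F, sum_cons G, Fintype.sum_bool, Fintype.sum_bool, e, e, e', sum_cons]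
    refine key.trans (div_le_div_of_nonneg_right ?_ zero_le_two)
    rw [sum_div]
    refine sum_le_sum fun b _ => ?_
    simp only [sum_cons, Fin.prod_univ_succ, Fin.cons_zero, Fin.cons_succ]
    rw [sum_comm]
    refine le_of_le_of_eq (sum_le_sum fun c _ => ?_) (sum_div _ _ _).symm
    refine (mul_le_mul_of_nonneg_left (ih _ _ (fun x => hF _) fun x => hG _)
      (kr_nonneg r b c)).trans (le_of_eq ?_)
    simp only [mul_assoc, ← mul_sum, mul_div_assoc]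

variable {ι : Type} [Fintype ι] [DecidableEq ι]

/-- The kernel of the noisy negation. -/
noncomputable def Kn (r : ℕ) (x w : ι → Bool) : ℝ := ∏ i, kr (par r) (x i) (w i)

omit [DecidableEq ι] in
theorem Kn_nonneg (r : ℕ) (x w : ι → Bool) : 0 ≤ Kn r x w :=
  prod_nonneg fun _ _ => kr_nonneg r _ _

theorem rev (r : ℕ) (F G : (ι → Bool) → ℝ) (hF : ∀ x, 0 ≤ F x) (hG : ∀ x, 0 ≤ G x) :
    ((∑ x, F x) / 2 ^ Fintype.card ι) ^ (2 * 2 ^ r) *
        ((∑ x, G x) / 2 ^ Fintype.card ι) ^ (2 * 2 ^ r) ≤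
      (∑ x, ∑ w, Kn r x w * (F x ^ (2 * 2 ^ r) * G w ^ (2 * 2 ^ r))) / 2 ^ Fintype.card ι := by
  let e := Fintype.equivFin ι
  let E : (Fin (Fintype.card ι) → Bool) ≃ (ι → Bool) := Equiv.arrowCongr e.symm (Equiv.refl Bool)
  have key := rev_fin r _ (fun x => F (E x)) (fun x => G (E x)) (fun _ => hF _) fun _ => hG _
  rw [E.sum_comp F, E.sum_comp G] at key
  refine key.trans (le_of_eq ?_)
  congr 1
  rw [← E.sum_comp]
  refine sum_congr rfl fun x _ => ?_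
  rw [← E.sum_comp]
  refine sum_congr rfl fun w _ => ?_
  rw [Kn, ← e.prod_comp]
  rfl

theorem sum_Kn (r : ℕ) (x : ι → Bool) (g : Bool → Bool → ℝ) :
    ∑ w, Kn r x w * ∏ i, g (x i) (w i) =
      ∏ i, (par r * g (x i) (x i) + (1 - par r) * g (x i) (!x i)) := by
  simp only [Kn, ← prod_mul_distrib]
  rw [← Fintype.piFinset_univ, ← prod_univ_sum (fun _ => univ)
    fun i b => kr (par r) (x i) b * g (x i) b]
  refine prod_congr rfl fun i _ => ?_
  rw [Fintype.sum_bool]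
  cases x i <;> simp [kr, add_comm]

theorem sum_Kn_one (r : ℕ) (x : ι → Bool) : ∑ w, Kn r x w = 1 := by
  simpa using sum_Kn r x fun _ _ => 1

/-- The number of places where two words agree. -/
def agr (x w : ι → Bool) : ℕ := (univ.filter fun i => w i = x i).card

theorem tail (r : ℕ) {δ : ℝ} (hδ : 4 * par r ≤ δ) (x : ι → Bool) :
    ∑ w, Kn r x w * (if (agr x w : ℝ) ≤ δ * Fintype.card ι then 0 else 1) ≤
      Real.exp (-(δ * Fintype.card ι / 2)) := by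
  obtain ⟨h0, -, h1⟩ := par_bounds r
  have a1 : ∀ w : ι → Bool, (if (agr x w : ℝ) ≤ δ * Fintype.card ι then (0 : ℝ) else 1) ≤
      Real.exp (-(δ * Fintype.card ι)) * ∏ i, if w i = x i then Real.exp 1 else 1 := by
    intro w
    rw [prod_ite, prod_const_one, mul_one, prod_const, ← Real.exp_nat_mul, ← Real.exp_add]
    split_ifs with h
    · exact (Real.exp_pos _).le
    · exact Real.one_le_exp (by unfold agr at h; linarith)
  refine (sum_le_sum fun w _ => mul_le_mul_of_nonneg_left (a1 w) (Kn_nonneg r x w)).trans ?_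
  simp only [mul_left_comm (Kn r x _), ← mul_sum]
  rw [sum_Kn r x fun a b => if b = a then Real.exp 1 else 1]
  have a2 : par r * Real.exp 1 + (1 - par r) ≤ Real.exp (δ / 2) := by
    have := Real.exp_one_lt_d9
    have := Real.add_one_le_exp (δ / 2)
    nlinarith
  simp only [if_true, Bool.not_eq_self, if_false, mul_one, prod_const, card_univ]
  refine (mul_le_mul_of_nonneg_left (pow_le_pow_left₀ (by positivity) a2 _)
    (Real.exp_pos _).le).trans (le_of_eq ?_)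
  rw [← Real.exp_nat_mul, ← Real.exp_add]
  congr 1
  ring

end Pool.Agent.P.MP_548a57_lc.R
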